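import Pool.Agent.Helper59.SL.GoalsG

/-!
# Project SL (MP_fc6b1e_nt), Galois part, packet GRP
-/

namespace Pool.Agent.Helper2.SLG.GRP

open Pool.Agent.Helper51.SigLeo Pool.Agent.Helper51.SixExp Pool.Agent.Helper17.SL NumberField Module
  TensorProduct
open Pool.Agent.Helper59.SL

universe u v w x

section

variable {F : Type u} {N : Type v} {H : Type x} [Field F] [Field N] [Field H] [Algebra F N]
  [Algebra F H] [Algebra N H] [IsScalarTower F N H] [Normal F N]

theorem restr_apply (γ : H ≃ₐ[F] H) (y : N) :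
    algebraMap N H (AlgEquiv.restrictNormalHom N γ y) = γ (algebraMap N H y) :=
  AlgEquiv.restrictNormal_commutes γ N y

theorem restr_eq_one_iff (γ : H ≃ₐ[F] H) :
    AlgEquiv.restrictNormalHom N γ = 1 ↔ ∀ y : N, γ (algebraMap N H y) = algebraMap N H y := by
  constructor
  · intro h y
    rw [← restr_apply, h]
    rfl
  · intro h
    ext y
    apply (algebraMap N H).injective
    rw [restr_apply, h]
    rfl

end

theorem thm : S_GRP.{u, v, w, x} := by
  classical
  intro F N K H _ _ _ _ _ _ _ _ _ _ _ _ _ _ _ _ _ _ _ v₁ v₂ hK hsig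
  have hfd : FiniteDimensional F K := FiniteDimensional.of_finrank_pos (by omega)
  have hquad : Algebra.IsQuadraticExtension F K := ⟨hK⟩
  -- the complex conjugation
  obtain ⟨φ, hφ⟩ := exists_extend_embedding (K := F) (H := H) v₁
  have h1 : (ComplexEmbedding.conjugate φ).comp (algebraMap F H) = φ.comp (algebraMap F H) := by
    rw [ComplexEmbedding.conjugate_comp, conjugate_real]
  obtain ⟨c, hc⟩ := exists_gal_comp φ (ComplexEmbedding.conjugate φ) h1
  have hcφ : ∀ y : H, ComplexEmbedding.conjugate φ y = φ (c y) := fun y ↦ by rw [hc]; rfl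
  have hcc : ∀ y : H, c (c y) = y := by
    intro y
    apply φ.injective
    rw [← hcφ, ComplexEmbedding.conjugate_coe_eq, ← hcφ, ComplexEmbedding.conjugate_coe_eq,
      Complex.conj_conj]
  have hcN : ∀ y : N, c (algebraMap N H y) = algebraMap N H y := by
    intro y
    apply φ.injective
    rw [← hcφ]
    have h2 : (φ.comp (algebraMap N H)).comp (algebraMap F N) = v₁ := by
      rw [RingHom.comp_assoc, ← IsScalarTower.algebraMap_eq F N H, hφ]
    have h3 := hsig.real _ h2
    rw [← ComplexEmbedding.conjugate_comp] at h3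
    exact RingHom.congr_fun h3 y
  have hcK : ∃ y : K, c (algebraMap K H y) ≠ algebraMap K H y := by
    by_contra hcon
    push Not at hcon
    apply conjugate_ne (φ.comp (algebraMap K H))
    rw [← ComplexEmbedding.conjugate_comp]
    ext y
    rw [RingHom.comp_apply, RingHom.comp_apply, hcφ, hcon]
  have hcc1 : c * c = 1 := by
    ext y
    exact hcc y
  set ρ : (H ≃ₐ[F] H) →* (K ≃ₐ[F] K) := AlgEquiv.restrictNormalHom K with hρ
  have hρ1 : ∀ γ : H ≃ₐ[F] H, ρ γ = 1 ↔ ∀ y : K, γ (algebraMap K H y) = algebraMap K H y :=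
    fun γ ↦ restr_eq_one_iff γ
  have hρc : ρ c ≠ 1 := by
    intro h
    obtain ⟨y, hy⟩ := hcK
    exact hy ((hρ1 c).mp h y)
  refine ⟨⟨c, hcc1, hcN, hcK⟩, ?_, ?_⟩
  · -- lifting
    intro g
    obtain ⟨γ₀, hγ₀⟩ := AlgEquiv.restrictNormalHom_surjective (F := F) (K₁ := N) H g
    have hγ : ∀ y : N, γ₀ (algebraMap N H y) = algebraMap N H (g y) := by
      intro y
      rw [← restr_apply, hγ₀]
    have key : ∀ δ : H ≃ₐ[F] H, ρ δ = 1 →
        (∀ y : N, δ (algebraMap N H y) = algebraMap N H (g y)) →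
        ∃ γ : H ≃ₐ[K] H, ∀ y : N, γ (algebraMap N H y) = algebraMap N H (g y) := by
      intro δ hδ hδN
      exact ⟨AlgEquiv.ofRingEquiv (f := (δ : H ≃+* H)) ((hρ1 δ).mp hδ), hδN⟩
    by_cases h0 : ρ γ₀ = 1
    · exact key γ₀ h0 hγ
    · apply key (γ₀ * c)
      · rw [map_mul]
        rcases gal_two hK (ρ c) hρc (ρ γ₀) with h | h
        · exact absurd h h0
        · rw [h]; exact tau_mul_tau hK (ρ c) hρc
      · intro y
        rw [AlgEquiv.mul_apply, hcN, hγ]
  · -- the sign character
    let e : (K ≃ₐ[F] K) →* ℤˣ :=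
      { toFun := fun g ↦ if g = 1 then 1 else -1
        map_one' := if_pos rfl
        map_mul' := by
          intro g g'
          rcases gal_two hK (ρ c) hρc g with h | h <;> rcases gal_two hK (ρ c) hρc g' with h' | h'
          · rw [h, h']; simp
          · rw [h, h']; simp
          · rw [h, h']; simp
          · rw [h, h', tau_mul_tau hK (ρ c) hρc]; simp [hρc] }
    refine ⟨e.comp ρ, ?_⟩
    intro γ
    rw [← hρ1 γ]
    show (if ρ γ = 1 then (1 : ℤˣ) else -1) = 1 ↔ _
    by_cases h : ρ γ = 1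
    · simp [h]
    · simp only [h, if_false, iff_false]
      decide

end Pool.Agent.Helper2.SLG.GRP
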